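import Mathlib

set_option autoImplicit false

open Set Ordinal Order

namespace Pool.Agent.Work.MP_b29fea_lc

/-- `T` contains a copy of the ordinal `γ`. -/
def Has (T : Set Ordinal.{0}) (γ : Ordinal.{0}) : Prop :=
  ∃ g : Ordinal.{0} → Ordinal.{0}, StrictMonoOn g (Iio γ) ∧ ∀ x < γ, g x ∈ T

theorem Has.mono {T T' : Set Ordinal.{0}} {γ γ' : Ordinal.{0}} (h : Has T γ) (hT : T ⊆ T')
    (hγ : γ' ≤ γ) : Has T' γ' := by
  obtain ⟨g, hg, hgT⟩ := h
  exact ⟨g, hg.mono (Iio_subset_Iio hγ), fun x hx => hT (hgT x (hx.trans_le hγ))⟩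

theorem has_sup {T : Set Ordinal.{0}} {α l : Ordinal.{0}} (hT : T ⊆ Iio α)
    (hl : ∀ γ < l, Order.succ γ < l) (h : ∀ γ < l, Has T γ) : Has T l := by
  classical
  set s : Set Ordinal.{0} := T ∪ Ici α with hs
  have hub : ¬ BddAbove s := by
    intro hb
    exact (not_bddAbove_Ici (a := α)) (hb.mono subset_union_right)
  refine ⟨enumOrd s, (enumOrd_strictMono hub).strictMonoOn _, ?_⟩
  intro x hx
  obtain ⟨g, hg, hgT⟩ := h _ (hl x hx)
  have key : ∀ y, y < Order.succ x → enumOrd s y ≤ g y := by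
    intro y
    induction y using WellFoundedLT.induction with
    | ind y ih =>
      intro hy
      refine enumOrd_le_of_forall_lt (Or.inl (hgT y hy)) ?_
      intro b hb
      exact (ih b hb (hb.trans hy)).trans_lt (hg (hb.trans hy) hy hb)
  have h1 : enumOrd s x ≤ g x := key x (Order.lt_succ x)
  have h2 : g x < α := hT (hgT x (Order.lt_succ x))
  rcases enumOrd_mem hub x with h3 | h3
  · exact h3
  · exact absurd (h1.trans_lt h2) (not_lt.mpr h3)

theorem has_block {g : Ordinal.{0} → Ordinal.{0}} {a b γ : Ordinal.{0}}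
    (hg : StrictMonoOn g (Iio b)) (hab : a + γ ≤ b) : Has (g '' Ico a (a + γ)) γ := by
  refine ⟨fun x => g (a + x), ?_, ?_⟩
  · intro x hx y hy hxy
    have hx' : x < γ := hx
    have hy' : y < γ := hy
    refine hg ?_ ?_ ?_
    · exact ((add_lt_add_iff_left a).2 hx').trans_le hab
    · exact ((add_lt_add_iff_left a).2 hy').trans_le hab
    · exact (add_lt_add_iff_left a).2 hxy
  · intro x hx
    exact ⟨a + x, ⟨le_self_add, (add_lt_add_iff_left a).2 hx⟩, rfl⟩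

theorem has_concat {T : Ordinal.{0} → Set Ordinal.{0}} {γ δ : Ordinal.{0}} (hγ : γ ≠ 0)
    (hT : ∀ ν < δ, Has (T ν) γ)
    (hlt : ∀ ν ν', ν < ν' → ν' < δ → ∀ x ∈ T ν, ∀ y ∈ T ν', x < y) :
    Has (⋃ ν ∈ Iio δ, T ν) (γ * δ) := by
  classical
  choose! G hG hGT using hT
  refine ⟨fun x => G (x / γ) (x % γ), ?_, ?_⟩
  · intro x hx y hy hxy
    have hx' : x < γ * δ := hx
    have hy' : y < γ * δ := hy
    have h1 : x / γ < δ := (lt_mul_iff_div_lt hγ).1 hx'
    have h2 : y / γ < δ := (lt_mul_iff_div_lt hγ).1 hy'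
    have h3 : x / γ ≤ y / γ := div_le_left hxy.le γ
    rcases h3.lt_or_eq with h4 | h4
    · exact hlt _ _ h4 h2 _ (hGT _ h1 _ (mod_lt x hγ)) _ (hGT _ h2 _ (mod_lt y hγ))
    · show G (x / γ) (x % γ) < G (y / γ) (y % γ)
      rw [← h4]
      refine hG _ h1 (mod_lt x hγ) (mod_lt y hγ) ?_
      have h5 := div_add_mod x γ
      have h6 := div_add_mod y γ
      rw [← h4] at h6
      by_contra h7
      have h8 : γ * (x / γ) + y % γ ≤ γ * (x / γ) + x % γ := by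
        exact add_le_add_right (not_lt.mp h7) _
      rw [h5, h6] at h8
      exact absurd hxy (not_lt.mpr h8)
  · intro x hx
    have h1 : x / γ < δ := (lt_mul_iff_div_lt hγ).1 hx
    simp only [mem_iUnion]
    exact ⟨x / γ, h1, hGT _ h1 _ (mod_lt x hγ)⟩

/-- an infinite set of ordinals contains a copy of `ω`. -/
theorem has_omega_of_infinite {S : Set Ordinal.{0}} (hS : S.Infinite) : Has S ω := by
  classical
  have : Infinite S := hS.to_subtype
  let f : ℕ ↪ S := Infinite.natEmbedding S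
  obtain ⟨e, he⟩ := exists_increasing_or_nonincreasing_subseq (fun x y : Ordinal.{0} => x < y)
    (fun n => (f n : Ordinal.{0}))
  have hinc : StrictMono (fun n : ℕ => ((f (e n) : S) : Ordinal.{0})) := by
    rcases he with he | he
    · intro m n hmn
      exact he m n hmn
    · exfalso
      have hdec : ∀ m n : ℕ, m < n → ((f (e n) : S) : Ordinal.{0}) < (f (e m) : S) := by
        intro m n hmn
        have h1 := he m n hmn
        have h2 : ((f (e n) : S) : Ordinal.{0}) ≤ (f (e m) : S) := not_lt.mp h1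
        refine lt_of_le_of_ne h2 ?_
        intro h3
        have h4 : f (e n) = f (e m) := Subtype.ext h3
        have h5 : e n = e m := f.injective h4
        have h6 : n = m := e.injective h5
        omega
      exact (RelEmbedding.natGT (r := fun x y : Ordinal.{0} => x < y)
        (fun n => ((f (e n) : S) : Ordinal.{0}))
        (fun n => hdec n (n+1) (Nat.lt_succ_self n))).not_wellFounded wellFounded_lt
  have htn : ∀ ν : Ordinal.{0}, ∃ n : ℕ, ν < ω → ν = n := by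
    intro ν
    by_cases h : ν < ω
    · obtain ⟨n, hn⟩ := lt_omega0.1 h
      exact ⟨n, fun _ => hn⟩
    · exact ⟨0, fun h' => absurd h' h⟩
  choose tn htn using htn
  refine ⟨fun ν => ((f (e (tn ν)) : S) : Ordinal.{0}), ?_, ?_⟩
  · intro x hx y hy hxy
    apply hinc
    have h1 := htn x hx
    have h2 := htn y hy
    have h3 : ((tn x : ℕ) : Ordinal.{0}) < ((tn y : ℕ) : Ordinal.{0}) := by
      rw [← h1, ← h2]; exact hxy
    exact_mod_cast h3
  · intro x _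
    exact (f (e (tn x))).2

theorem infinite_of_has {S : Set Ordinal.{0}} {γ : Ordinal.{0}} (hγ : ω ≤ γ) (h : Has S γ) :
    S.Infinite := by
  obtain ⟨g, hg, hgS⟩ := h
  have hinj : Function.Injective (fun n : ℕ => g (n : Ordinal.{0})) := by
    intro m n hmn
    have h1 : (m : Ordinal.{0}) ∈ Iio γ := (natCast_lt_omega0 m).trans_le hγ
    have h2 : (n : Ordinal.{0}) ∈ Iio γ := (natCast_lt_omega0 n).trans_le hγ
    have := hg.injOn h1 h2 hmn
    exact_mod_cast this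
  refine (Set.infinite_range_of_injective hinj).mono ?_
  rintro _ ⟨n, rfl⟩
  exact hgS _ ((natCast_lt_omega0 n).trans_le hγ)

/-- removing finitely many points -/
theorem has_diff_finite {T : Set Ordinal.{0}} {ζ : Ordinal.{0}} (hζ : ζ ≠ 0)
    (h : Has T (ω ^ ζ)) (F : Finset Ordinal.{0}) : Has (T \ (F : Set Ordinal.{0})) (ω ^ ζ) := by
  classical
  obtain ⟨g, hg, hgT⟩ := h
  have hpos : (0 : Ordinal.{0}) < ω ^ ζ := opow_pos _ omega0_pos
  -- bound for the preimages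
  have hb : ∃ x₀ < ω ^ ζ, ∀ x < ω ^ ζ, g x ∈ F → x ≤ x₀ := by
    have : ∀ y : Ordinal.{0}, ∃ x₀ : Ordinal.{0}, x₀ < ω ^ ζ ∧ ∀ x < ω ^ ζ, g x = y → x ≤ x₀ := by
      intro y
      by_cases hy : ∃ x < ω ^ ζ, g x = y
      · obtain ⟨x₁, hx₁, hx₁y⟩ := hy
        refine ⟨x₁, hx₁, fun x hx hxy => ?_⟩
        exact (hg.injOn hx hx₁ (hxy.trans hx₁y.symm)).le
      · exact ⟨0, hpos, fun x hx hxy => absurd ⟨x, hx, hxy⟩ hy⟩
    choose p hp1 hp2 using this
    refine ⟨F.sup p, ?_, ?_⟩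
    · rw [Finset.sup_lt_iff (by simpa using hpos)]
      intro y _
      exact hp1 y
    · intro x hx hxF
      exact (hp2 (g x) x hx rfl).trans (Finset.le_sup (f := p) hxF)
  obtain ⟨x₀, hx₀, hx₀'⟩ := hb
  have hlim : Order.succ x₀ < ω ^ ζ := (isSuccLimit_opow_left isSuccLimit_omega0 hζ).succ_lt hx₀
  have hadd : ∀ x < ω ^ ζ, Order.succ x₀ + x < ω ^ ζ := fun x hx =>
    isPrincipal_add_omega0_opow ζ hlim hx
  refine ⟨fun x => g (Order.succ x₀ + x), ?_, ?_⟩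
  · intro x hx y hy hxy
    exact hg (hadd x hx) (hadd y hy) ((add_lt_add_iff_left _).2 hxy)
  · intro x hx
    refine ⟨hgT _ (hadd x hx), ?_⟩
    intro hF
    have h1 := hx₀' _ (hadd x hx) hF
    have h2 : x₀ < Order.succ x₀ + x := (Order.lt_succ x₀).trans_le le_self_add
    exact absurd h1 (not_le.mpr h2)

/-- a down-up matching inside `X` whose lower side has type `γ`. -/
def HasMatching (G : SimpleGraph Ordinal.{0}) (X : Set Ordinal.{0}) (γ : Ordinal.{0}) : Prop :=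
  ∃ A B : Set Ordinal.{0}, A ⊆ X ∧ B ⊆ X ∧ (∀ a ∈ A, ∀ b ∈ B, a < b) ∧
    Nonempty (A ≃o Set.Iio γ) ∧ ∃ f : A ≃ B, ∀ a : A, G.Adj (a : Ordinal.{0}) (f a : Ordinal.{0})

def Indep (G : SimpleGraph Ordinal.{0}) (S : Set Ordinal.{0}) : Prop :=
  S.Pairwise (fun x y => ¬ G.Adj x y)

theorem countable_Iio_omega_pow (n : ℕ) :
    (Iio (ω ^ (n : Ordinal.{0}) : Ordinal.{0})).Countable := by
  rw [← Cardinal.le_aleph0_iff_set_countable, Cardinal.mk_Iio_ordinal, Cardinal.lift_le_aleph0]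
  refine (card_opow_le _ _).trans ?_
  simp

/-- The greedy argument: if no finite set covers the edges between any of the blocks `I ν`,
`ν < ω ^ n`, and `U`, then there is a matching of type `ω ^ (n+1)`. -/
theorem greedy (G : SimpleGraph Ordinal.{0}) (X : Set Ordinal.{0}) (n : ℕ)
    (I : Ordinal.{0} → Set Ordinal.{0}) (U : Set Ordinal.{0})
    (hIX : ∀ ν < ω ^ (n : Ordinal.{0}), I ν ⊆ X) (hUX : U ⊆ X)
    (hlt : ∀ ν ν', ν < ν' → ν' < ω ^ (n : Ordinal.{0}) → ∀ x ∈ I ν, ∀ y ∈ I ν', x < y)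
    (hIU : ∀ ν < ω ^ (n : Ordinal.{0}), ∀ x ∈ I ν, ∀ y ∈ U, x < y)
    (hbad : ∀ ν < ω ^ (n : Ordinal.{0}), ∀ F : Finset Ordinal.{0},
      ∃ a ∈ I ν, ∃ b ∈ U, a ∉ F ∧ b ∉ F ∧ G.Adj a b) :
    HasMatching G X (ω ^ ((n + 1 : ℕ) : Ordinal.{0})) := by
  classical
  have hpos : (0 : Ordinal.{0}) < ω ^ (n : Ordinal.{0}) := opow_pos _ omega0_pos
  -- enumerate the pairs
  have hc : Countable (Iio (ω ^ (n : Ordinal.{0}) : Ordinal.{0})) :=
    (countable_Iio_omega_pow n).to_subtype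
  have hne : Nonempty (Iio (ω ^ (n : Ordinal.{0}) : Ordinal.{0})) := ⟨⟨0, hpos⟩⟩
  obtain ⟨e, he⟩ := exists_surjective_nat (Iio (ω ^ (n : Ordinal.{0}) : Ordinal.{0}) × ℕ)
  choose! pa hpa pb hpb hpa' hpb' hadj using hbad
  let st : ℕ → Finset Ordinal.{0} := fun s => Nat.rec ∅ (fun s F =>
    insert (pa (e s).1 F) (insert (pb (e s).1 F) F)) s
  have hst : ∀ s, st (s + 1) =
      insert (pa (e s).1 (st s)) (insert (pb (e s).1 (st s)) (st s)) := fun s => rfl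
  set a : ℕ → Ordinal.{0} := fun s => pa (e s).1 (st s) with ha
  set b : ℕ → Ordinal.{0} := fun s => pb (e s).1 (st s) with hb
  have hmono : Monotone st := by
    refine monotone_nat_of_le_succ fun s => ?_
    rw [hst]
    exact (Finset.subset_insert _ _).trans (Finset.insert_subset_insert _ (Finset.subset_insert _ _))
  have ha1 : ∀ s, a s ∈ I (e s).1 := fun s => hpa _ (e s).1.2 _
  have hb1 : ∀ s, b s ∈ U := fun s => hpb _ (e s).1.2 _
  have ha2 : ∀ s, a s ∉ st s := fun s => hpa' _ (e s).1.2 _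
  have hb2 : ∀ s, b s ∉ st s := fun s => hpb' _ (e s).1.2 _
  have hab : ∀ s, G.Adj (a s) (b s) := fun s => hadj _ (e s).1.2 _
  have ha3 : ∀ s, a s ∈ st (s + 1) := fun s => by rw [hst]; exact Finset.mem_insert_self _ _
  have hb3 : ∀ s, b s ∈ st (s + 1) := fun s => by
    rw [hst]; exact Finset.mem_insert_of_mem (Finset.mem_insert_self _ _)
  have ainj : Function.Injective a := by
    intro s t hst'
    by_contra hne'
    rcases lt_or_gt_of_ne hne' with h | h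
    · exact ha2 t (hst' ▸ hmono (Nat.succ_le_of_lt h) (ha3 s))
    · exact ha2 s (hst'.symm ▸ hmono (Nat.succ_le_of_lt h) (ha3 t))
  have binj : Function.Injective b := by
    intro s t hst'
    by_contra hne'
    rcases lt_or_gt_of_ne hne' with h | h
    · exact hb2 t (hst' ▸ hmono (Nat.succ_le_of_lt h) (hb3 s))
    · exact hb2 s (hst'.symm ▸ hmono (Nat.succ_le_of_lt h) (hb3 t))
  -- the sets `A ν`
  let Aν : Ordinal.{0} → Set Ordinal.{0} := fun ν => {x | ∃ s, ((e s).1 : Ordinal.{0}) = ν ∧ a s = x}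
  have hAinf : ∀ ν < ω ^ (n : Ordinal.{0}), Has (Aν ν) ω := by
    intro ν hν
    apply has_omega_of_infinite
    choose σ hσ using fun i : ℕ => he (⟨ν, hν⟩, i)
    have hinj : Function.Injective (fun i => a (σ i)) := by
      intro i j hij
      have h1 : σ i = σ j := ainj hij
      have h2 := hσ i
      rw [h1, hσ j] at h2
      exact (Prod.ext_iff.1 h2).2.symm
    refine (Set.infinite_range_of_injective hinj).mono ?_
    rintro _ ⟨i, rfl⟩
    exact ⟨σ i, by rw [hσ i], rfl⟩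
  have hAI : ∀ ν, Aν ν ⊆ I ν := by
    rintro ν _ ⟨s, hs, rfl⟩
    rw [← hs]
    exact ha1 s
  have hcat : Has (⋃ ν ∈ Iio (ω ^ (n : Ordinal.{0})), Aν ν) (ω * ω ^ (n : Ordinal.{0})) := by
    refine has_concat omega0_ne_zero hAinf ?_
    intro ν ν' h1 h2 x hx y hy
    exact hlt ν ν' h1 h2 x (hAI _ hx) y (hAI _ hy)
  have hexp : ω * ω ^ (n : Ordinal.{0}) = ω ^ ((n + 1 : ℕ) : Ordinal.{0}) := by
    rw [opow_natCast, opow_natCast, pow_succ']
  rw [hexp] at hcat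
  obtain ⟨g, hg, hgA⟩ := hcat
  have hgs : ∀ x ∈ g '' Iio (ω ^ ((n + 1 : ℕ) : Ordinal.{0})), ∃ s, a s = x := by
    rintro _ ⟨x, hx, rfl⟩
    have h1 := hgA x hx
    simp only [mem_iUnion] at h1
    obtain ⟨ν, _, s, _, hs⟩ := h1
    exact ⟨s, hs⟩
  choose! σ hσ using hgs
  have hinj : InjOn (fun x => b (σ x)) (g '' Iio (ω ^ ((n + 1 : ℕ) : Ordinal.{0}))) := by
    intro x hx y hy hxy
    have h1 : σ x = σ y := binj hxy
    rw [← hσ x hx, ← hσ y hy, h1]
  refine ⟨g '' Iio (ω ^ ((n + 1 : ℕ) : Ordinal.{0})),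
    (fun x => b (σ x)) '' (g '' Iio (ω ^ ((n + 1 : ℕ) : Ordinal.{0}))), ?_, ?_, ?_, ?_, ?_⟩
  · intro x hx
    rw [← hσ x hx]
    exact hIX _ (e (σ x)).1.2 (ha1 _)
  · rintro _ ⟨x, hx, rfl⟩
    exact hUX (hb1 _)
  · rintro x hx _ ⟨y, hy, rfl⟩
    rw [← hσ x hx]
    exact hIU _ (e (σ x)).1.2 _ (ha1 _) _ (hb1 _)
  · exact ⟨(StrictMonoOn.orderIso g _ hg).symm⟩
  · refine ⟨(hinj.bijOn_image).equiv _, ?_⟩
    rintro ⟨x, hx⟩
    show G.Adj x (b (σ x))
    have h1 := hab (σ x)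
    rw [hσ x hx] at h1
    exact h1

/-- Among the blocks `I ν` of a copy, one has a finite cover of its edges to `U`. -/
theorem exists_cover (G : SimpleGraph Ordinal.{0}) (X : Set Ordinal.{0}) (n : ℕ)
    (hN : ¬ HasMatching G X (ω ^ ((n + 1 : ℕ) : Ordinal.{0})))
    {g : Ordinal.{0} → Ordinal.{0}} {a b ζ : Ordinal.{0}}
    (hg : StrictMonoOn g (Iio b)) (hgX : ∀ x < b, g x ∈ X)
    (hab : a + ω ^ ζ * ω ^ (n : Ordinal.{0}) < b)
    (I : Ordinal.{0} → Set Ordinal.{0})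
    (hI : ∀ ν < ω ^ (n : Ordinal.{0}),
      I ν ⊆ g '' Ico (a + ω ^ ζ * ν) (a + ω ^ ζ * ν + ω ^ ζ)) :
    ∃ ν < ω ^ (n : Ordinal.{0}), ∃ F : Finset Ordinal.{0}, ∀ x ∈ I ν,
      ∀ y ∈ g '' Ico (a + ω ^ ζ * ω ^ (n : Ordinal.{0})) b, G.Adj x y → x ∈ F ∨ y ∈ F := by
  by_contra hcon
  push Not at hcon
  have hbd : ∀ ν < ω ^ (n : Ordinal.{0}), a + ω ^ ζ * ν + ω ^ ζ ≤ a + ω ^ ζ * ω ^ (n : Ordinal.{0}) := by
    intro ν hν
    rw [add_assoc, ← mul_add_one]
    refine add_le_add_right (mul_le_mul_right ?_ _) _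
    exact Order.add_one_le_of_lt hν
  apply hN
  refine greedy G X n I (g '' Ico (a + ω ^ ζ * ω ^ (n : Ordinal.{0})) b) ?_ ?_ ?_ ?_ ?_
  · intro ν hν x hx
    obtain ⟨z, hz, rfl⟩ := hI ν hν hx
    exact hgX _ ((hz.2.trans_le (hbd ν hν)).trans hab)
  · rintro _ ⟨z, hz, rfl⟩
    exact hgX _ hz.2
  · intro ν ν' h1 h2 x hx y hy
    obtain ⟨z, hz, rfl⟩ := hI ν (h1.trans h2) hx
    obtain ⟨w, hw, rfl⟩ := hI ν' h2 hy
    refine hg ?_ ?_ ?_
    · exact (hz.2.trans_le (hbd ν (h1.trans h2))).trans hab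
    · exact (hw.2.trans_le (hbd ν' h2)).trans hab
    · refine hz.2.trans_le (le_trans ?_ hw.1)
      rw [add_assoc, ← mul_add_one]
      refine add_le_add_right (mul_le_mul_right ?_ _) _
      exact Order.add_one_le_of_lt h1
  · rintro ν hν x hx _ ⟨w, hw, rfl⟩
    obtain ⟨z, hz, rfl⟩ := hI ν hν hx
    refine hg ?_ hw.2 ?_
    · exact (hz.2.trans_le (hbd ν hν)).trans hab
    · exact (hz.2.trans_le (hbd ν hν)).trans_le hw.1
  · intro ν hν F
    obtain ⟨x, hx, y, hy, hxy, h1, h2⟩ := hcon ν hν F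
    exact ⟨x, hx, y, hy, h1, h2, hxy⟩

/-- `Star G g b a τ`: beyond `a` one finds, in a bounded part of the copy `g` of `b`, an
independent set containing a copy of `τ` and having no edge to the rest of the copy. -/
def Star (G : SimpleGraph Ordinal.{0}) (g : Ordinal.{0} → Ordinal.{0}) (b a τ : Ordinal.{0}) :
    Prop :=
  ∃ h, a < h ∧ h < b ∧ ∃ T ⊆ g '' Ico a h, Indep G T ∧ Has T τ ∧
    ∀ x ∈ T, ∀ y ∈ g '' Ico h b, ¬ G.Adj x y

/-- bounding the preimage of a finite set -/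
theorem exists_bound {g : Ordinal.{0} → Ordinal.{0}} {b : Ordinal.{0}} (hb : IsSuccLimit b)
    (hg : StrictMonoOn g (Iio b)) (F : Finset Ordinal.{0}) :
    ∃ h₀ < b, ∀ x < b, g x ∈ F → x ≤ h₀ := by
  classical
  have hpos : (0 : Ordinal.{0}) < b := hb.bot_lt
  have : ∀ y : Ordinal.{0}, ∃ x₀ : Ordinal.{0}, x₀ < b ∧ ∀ x < b, g x = y → x ≤ x₀ := by
    intro y
    by_cases hy : ∃ x < b, g x = y
    · obtain ⟨x₁, hx₁, hx₁y⟩ := hy
      refine ⟨x₁, hx₁, fun x hx hxy => ?_⟩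
      exact (hg.injOn hx hx₁ (hxy.trans hx₁y.symm)).le
    · exact ⟨0, hpos, fun x hx hxy => absurd ⟨x, hx, hxy⟩ hy⟩
  choose p hp1 hp2 using this
  refine ⟨F.sup p, ?_, ?_⟩
  · rw [Finset.sup_lt_iff (by simpa using hpos)]
    intro y _
    exact hp1 y
  · intro x hx hxF
    exact (hp2 (g x) x hx rfl).trans (Finset.le_sup (f := p) hxF)

theorem star_of_cover (G : SimpleGraph Ordinal.{0}) {g : Ordinal.{0} → Ordinal.{0}}
    {b a c τ : Ordinal.{0}} (hb : IsSuccLimit b) (hg : StrictMonoOn g (Iio b))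
    (hac : a < c) (hcb : c < b) (T : Set Ordinal.{0}) (hT : T ⊆ g '' Ico a c)
    (hTi : Indep G T) (hTτ : Has T τ)
    (F : Finset Ordinal.{0}) (hF : ∀ x ∈ T, ∀ y ∈ g '' Ico c b, G.Adj x y → y ∈ F) :
    Star G g b a τ := by
  obtain ⟨h₀, hh₀, hh₀'⟩ := exists_bound hb hg F
  refine ⟨max c (Order.succ h₀), lt_max_of_lt_left hac, max_lt hcb (hb.succ_lt hh₀), T, ?_, hTi, hTτ, ?_⟩
  · exact hT.trans (image_mono (Ico_subset_Ico_right (le_max_left _ _)))
  · rintro x hx _ ⟨z, hz, rfl⟩ hadj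
    have h1 : z ∈ Ico c b := ⟨(le_max_left _ _).trans hz.1, hz.2⟩
    have h2 := hF x hx (g z) ⟨z, h1, rfl⟩ hadj
    have h3 := hh₀' z hz.2 h2
    have h4 : h₀ < z := (Order.lt_succ h₀).trans_le ((le_max_right _ _).trans hz.1)
    exact absurd h3 (not_le.mpr h4)

/-- `Pos G X ζ ζ'`: every subset of `X` with a copy of `ω ^ ζ` has an independent subset with a
copy of `ω ^ ζ'`. -/
def Pos (G : SimpleGraph Ordinal.{0}) (X : Set Ordinal.{0}) (ζ ζ' : Ordinal.{0}) : Prop :=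
  ∀ T ⊆ X, Has T (ω ^ ζ) → ∃ S ⊆ T, Indep G S ∧ Has S (ω ^ ζ')

theorem star_of_pos (G : SimpleGraph Ordinal.{0}) (X : Set Ordinal.{0}) (n : ℕ)
    (hN : ¬ HasMatching G X (ω ^ ((n + 1 : ℕ) : Ordinal.{0})))
    {g : Ordinal.{0} → Ordinal.{0}} {a b ζ ζ' : Ordinal.{0}} (hb : IsSuccLimit b)
    (hg : StrictMonoOn g (Iio b)) (hgX : ∀ x < b, g x ∈ X)
    (hab : a + ω ^ ζ * ω ^ (n : Ordinal.{0}) < b) (hζ' : ζ' ≠ 0) (hpos : Pos G X ζ ζ') :
    Star G g b a (ω ^ ζ') := by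
  classical
  have hbd : ∀ ν < ω ^ (n : Ordinal.{0}), a + ω ^ ζ * ν + ω ^ ζ ≤ a + ω ^ ζ * ω ^ (n : Ordinal.{0}) := by
    intro ν hν
    rw [add_assoc, ← mul_add_one]
    refine add_le_add_right (mul_le_mul_right ?_ _) _
    exact Order.add_one_le_of_lt hν
  have hex : ∀ ν < ω ^ (n : Ordinal.{0}), ∃ S ⊆ g '' Ico (a + ω ^ ζ * ν) (a + ω ^ ζ * ν + ω ^ ζ),
      Indep G S ∧ Has S (ω ^ ζ') := by
    intro ν hν
    apply hpos
    · rintro _ ⟨z, hz, rfl⟩
      exact hgX _ ((hz.2.trans_le (hbd ν hν)).trans hab)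
    · exact has_block hg ((hbd ν hν).trans hab.le)
  choose! I hI1 hI2 hI3 using hex
  obtain ⟨ν, hν, F, hF⟩ := exists_cover G X n hN hg hgX hab I hI1
  have hIbd : I ν ⊆ g '' Ico a (a + ω ^ ζ * ω ^ (n : Ordinal.{0})) := by
    refine (hI1 ν hν).trans (image_mono (Ico_subset_Ico ?_ (hbd ν hν)))
    exact le_self_add
  have hlt : a < a + ω ^ ζ * ω ^ (n : Ordinal.{0}) := by
    conv_lhs => rw [← add_zero a]
    refine (add_lt_add_iff_left a).2 ?_
    exact mul_pos (opow_pos _ omega0_pos) (opow_pos _ omega0_pos)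
  refine star_of_cover G hb hg hlt hab (I ν \ (F : Set Ordinal.{0}))
    (sdiff_subset.trans hIbd) ((hI2 ν hν).mono sdiff_subset)
    (has_diff_finite hζ' (hI3 ν hν) F) F ?_
  intro x hx y hy hadj
  rcases hF x hx.1 y hy hadj with h | h
  · exact absurd h hx.2
  · exact h

theorem star_base (G : SimpleGraph Ordinal.{0}) (X : Set Ordinal.{0}) (n : ℕ)
    (hN : ¬ HasMatching G X (ω ^ ((n + 1 : ℕ) : Ordinal.{0})))
    {g : Ordinal.{0} → Ordinal.{0}} {a b : Ordinal.{0}} (hb : IsSuccLimit b)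
    (hg : StrictMonoOn g (Iio b)) (hgX : ∀ x < b, g x ∈ X)
    (hab : a + ω ^ (1 : Ordinal.{0}) * ω ^ (n : Ordinal.{0}) < b) :
    Star G g b a 1 := by
  classical
  have hbd : ∀ ν < ω ^ (n : Ordinal.{0}),
      a + ω ^ (1 : Ordinal.{0}) * ν + ω ^ (1 : Ordinal.{0}) ≤
        a + ω ^ (1 : Ordinal.{0}) * ω ^ (n : Ordinal.{0}) := by
    intro ν hν
    rw [add_assoc, ← mul_add_one]
    refine add_le_add_right (mul_le_mul_right ?_ _) _
    exact Order.add_one_le_of_lt hν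
  obtain ⟨ν, hν, F, hF⟩ := exists_cover G X n hN hg hgX hab
    (fun ν => g '' Ico (a + ω ^ (1 : Ordinal.{0}) * ν)
      (a + ω ^ (1 : Ordinal.{0}) * ν + ω ^ (1 : Ordinal.{0}))) (fun ν _ => Subset.rfl)
  have hinf : (g '' Ico (a + ω ^ (1 : Ordinal.{0}) * ν)
      (a + ω ^ (1 : Ordinal.{0}) * ν + ω ^ (1 : Ordinal.{0}))).Infinite :=
    infinite_of_has (γ := ω ^ (1 : Ordinal.{0})) (by simp) (has_block hg ((hbd ν hν).trans hab.le))
  obtain ⟨x, hx, hxF⟩ := (hinf.sdiff F.finite_toSet).nonempty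
  have hlt : a < a + ω ^ (1 : Ordinal.{0}) * ω ^ (n : Ordinal.{0}) := by
    conv_lhs => rw [← add_zero a]
    refine (add_lt_add_iff_left a).2 ?_
    exact mul_pos (opow_pos _ omega0_pos) (opow_pos _ omega0_pos)
  refine star_of_cover G hb hg hlt hab {x} ?_ ?_ ?_ F ?_
  · rintro _ rfl
    refine image_mono (Ico_subset_Ico ?_ (hbd ν hν)) hx
    exact le_self_add
  · exact Set.pairwise_singleton _ _
  · refine ⟨fun _ => x, ?_, fun _ _ => rfl⟩
    intro u hu v hv huv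
    exfalso
    have h1 : u < 1 := hu
    have h2 : v < 1 := hv
    rw [Order.lt_one_iff] at h1 h2
    rw [h1, h2] at huv
    exact lt_irrefl _ huv
  · intro x' hx' y hy hadj
    rw [mem_singleton_iff] at hx'
    rw [hx'] at hadj
    rcases hF x hx y hy hadj with h | h
    · exact absurd h hxF
    · exact h

/-- gluing `ω` many pieces -/
theorem glue_succ (G : SimpleGraph Ordinal.{0}) {g : Ordinal.{0} → Ordinal.{0}}
    {b τ : Ordinal.{0}} (hb0 : 0 < b) (hτ : τ ≠ 0)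
    (hg : StrictMonoOn g (Iio b)) (hstar : ∀ a < b, Star G g b a τ) :
    ∃ S ⊆ g '' Iio b, Indep G S ∧ Has S (τ * ω) := by
  classical
  choose! h hh1 hh2 T hT1 hT2 hT3 hT4 using hstar
  let c : ℕ → Ordinal.{0} := fun m => h^[m] 0
  have hc : ∀ m, c (m + 1) = h (c m) := fun m => Function.iterate_succ_apply' h m 0
  have hcb : ∀ m, c m < b := by
    intro m
    induction m with
    | zero => exact hb0
    | succ m ih => rw [hc]; exact hh2 _ ih
  have hcm : StrictMono c := by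
    refine strictMono_nat_of_lt_succ fun m => ?_
    rw [hc]
    exact hh1 _ (hcb m)
  have hlt : ∀ m m', m < m' → ∀ x ∈ T (c m), ∀ y ∈ T (c m'), x < y := by
    intro m m' hmm' x hx y hy
    obtain ⟨z, hz, rfl⟩ := hT1 _ (hcb m) hx
    obtain ⟨w, hw, rfl⟩ := hT1 _ (hcb m') hy
    refine hg (hz.2.trans (hh2 _ (hcb m))) (hw.2.trans (hh2 _ (hcb m'))) ?_
    refine hz.2.trans_le (le_trans ?_ hw.1)
    rw [← hc]
    exact hcm.monotone hmm'
  have hnadj : ∀ m m', m < m' → ∀ x ∈ T (c m), ∀ y ∈ T (c m'), ¬ G.Adj x y := by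
    intro m m' hmm' x hx y hy
    refine hT4 _ (hcb m) x hx y ?_
    obtain ⟨w, hw, rfl⟩ := hT1 _ (hcb m') hy
    refine ⟨w, ⟨?_, hw.2.trans (hh2 _ (hcb m'))⟩, rfl⟩
    refine le_trans ?_ hw.1
    rw [← hc]
    exact hcm.monotone hmm'
  refine ⟨⋃ m : ℕ, T (c m), ?_, ?_, ?_⟩
  · intro x hx
    obtain ⟨m, hm⟩ := mem_iUnion.1 hx
    obtain ⟨z, hz, rfl⟩ := hT1 _ (hcb m) hm
    exact ⟨z, hz.2.trans (hh2 _ (hcb m)), rfl⟩
  · intro x hx y hy hxy
    obtain ⟨m, hm⟩ := mem_iUnion.1 hx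
    obtain ⟨m', hm'⟩ := mem_iUnion.1 hy
    rcases lt_trichotomy m m' with h1 | h1 | h1
    · exact hnadj m m' h1 x hm y hm'
    · subst h1
      exact hT2 _ (hcb m) hm hm' hxy
    · intro hadj
      exact hnadj m' m h1 y hm' x hm hadj.symm
  · have htn : ∀ ν : Ordinal.{0}, ∃ n : ℕ, ν < ω → ν = n := by
      intro ν
      by_cases h : ν < ω
      · obtain ⟨n, hn⟩ := lt_omega0.1 h
        exact ⟨n, fun _ => hn⟩
      · exact ⟨0, fun h' => absurd h' h⟩
    choose tn htn using htn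
    have hcat : Has (⋃ ν ∈ Iio (ω : Ordinal.{0}), T (c (tn ν))) (τ * ω) := by
      refine has_concat hτ ?_ ?_
      · intro ν _
        exact hT3 _ (hcb _)
      · intro ν ν' h1 h2 x hx y hy
        refine hlt _ _ ?_ x hx y hy
        have h3 := htn ν (h1.trans h2)
        have h4 := htn ν' h2
        have h5 : ((tn ν : ℕ) : Ordinal.{0}) < ((tn ν' : ℕ) : Ordinal.{0}) := by
          rw [← h3, ← h4]; exact h1
        exact_mod_cast h5
    refine hcat.mono ?_ le_rfl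
    intro x hx
    simp only [mem_iUnion] at hx
    obtain ⟨ν, _, hν⟩ := hx
    exact mem_iUnion.2 ⟨_, hν⟩

/-- gluing at limit exponents, with no restriction on the cofinality -/
theorem glue_limit (G : SimpleGraph Ordinal.{0}) {g : Ordinal.{0} → Ordinal.{0}}
    {b α : Ordinal.{0}} (hb : IsSuccLimit b) (hgα : ∀ x < b, g x < α)
    (hstar : ∀ a < b, Star G g b a a) :
    ∃ S ⊆ g '' Iio b, Indep G S ∧ Has S b := by
  classical
  choose! h hh1 hh2 T hT1 hT2 hT3 hT4 using hstar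
  obtain ⟨C, hC⟩ := zorn_subset
    {C : Set Ordinal.{0} | C ⊆ Iio b ∧ ∀ c ∈ C, ∀ c' ∈ C, c < c' → h c ≤ c'} (by
      intro K hK hchain
      refine ⟨⋃₀ K, ⟨?_, ?_⟩, fun s hs => subset_sUnion_of_mem hs⟩
      · exact sUnion_subset fun s hs => (hK hs).1
      · rintro c ⟨s, hs, hcs⟩ c' ⟨s', hs', hcs'⟩ hcc'
        rcases hchain.total hs hs' with h1 | h1
        · exact (hK hs').2 c (h1 hcs) c' hcs' hcc'
        · exact (hK hs).2 c hcs c' (h1 hcs') hcc')
  have hCb : C ⊆ Iio b := hC.prop.1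
  have hCh : ∀ c ∈ C, ∀ c' ∈ C, c < c' → h c ≤ c' := hC.prop.2
  have hunb : ∀ a < b, ∃ c ∈ C, a ≤ c := by
    intro a ha
    by_contra hcon
    push Not at hcon
    -- a new element, above all of `C`
    have hnew : ∃ p < b, (∀ c ∈ C, c < p) ∧ ∀ c ∈ C, h c ≤ p := by
      by_cases hmax : ∃ μ ∈ C, ∀ c ∈ C, c ≤ μ
      · obtain ⟨μ, hμ, hμ'⟩ := hmax
        refine ⟨h μ, hh2 _ (hCb hμ), ?_, ?_⟩
        · intro c hc
          exact (hμ' c hc).trans_lt (hh1 _ (hCb hμ))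
        · intro c hc
          rcases (hμ' c hc).lt_or_eq with h1 | h1
          · exact (hCh c hc μ hμ h1).trans (hh1 _ (hCb hμ)).le
          · rw [h1]
      · push Not at hmax
        refine ⟨a, ha, fun c hc => hcon c hc, ?_⟩
        intro c hc
        obtain ⟨c', hc', hcc'⟩ := hmax c hc
        exact (hCh c hc c' hc' hcc').trans (hcon c' hc').le
    obtain ⟨p, hpb, hp1, hp2⟩ := hnew
    have hmem : insert p C ∈
        {C : Set Ordinal.{0} | C ⊆ Iio b ∧ ∀ c ∈ C, ∀ c' ∈ C, c < c' → h c ≤ c'} := by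
      refine ⟨?_, ?_⟩
      · intro x hx
        rcases hx with rfl | hx
        · exact hpb
        · exact hCb hx
      · rintro c (rfl | hc) c' (rfl | hc') hcc'
        · exact absurd hcc' (lt_irrefl _)
        · exact absurd (hcc'.trans (hp1 c' hc')) (lt_irrefl _)
        · exact hp2 c hc
        · exact hCh c hc c' hc' hcc'
    have h1 : p ∈ C := hC.le_of_ge hmem (subset_insert _ _) (mem_insert _ _)
    exact lt_irrefl _ (hp1 p h1)
  refine ⟨⋃ c ∈ C, T c, ?_, ?_, ?_⟩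
  · intro x hx
    simp only [mem_iUnion] at hx
    obtain ⟨c, hc, hxc⟩ := hx
    obtain ⟨z, hz, rfl⟩ := hT1 _ (hCb hc) hxc
    exact ⟨z, hz.2.trans (hh2 _ (hCb hc)), rfl⟩
  · have hnadj : ∀ c ∈ C, ∀ c' ∈ C, c < c' → ∀ x ∈ T c, ∀ y ∈ T c', ¬ G.Adj x y := by
      intro c hc c' hc' hcc' x hx y hy
      refine hT4 _ (hCb hc) x hx y ?_
      obtain ⟨w, hw, rfl⟩ := hT1 _ (hCb hc') hy
      refine ⟨w, ⟨?_, hw.2.trans (hh2 _ (hCb hc'))⟩, rfl⟩
      exact (hCh c hc c' hc' hcc').trans hw.1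
    intro x hx y hy hxy
    simp only [mem_iUnion] at hx hy
    obtain ⟨c, hc, hxc⟩ := hx
    obtain ⟨c', hc', hyc⟩ := hy
    rcases lt_trichotomy c c' with h1 | h1 | h1
    · exact hnadj c hc c' hc' h1 x hxc y hyc
    · subst h1
      exact hT2 _ (hCb hc) hxc hyc hxy
    · intro hadj
      exact hnadj c' hc' c hc h1 y hyc x hxc hadj.symm
  · refine has_sup (α := α) ?_ (fun γ hγ => hb.succ_lt hγ) ?_
    · intro x hx
      simp only [mem_iUnion] at hx
      obtain ⟨c, hc, hxc⟩ := hx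
      obtain ⟨z, hz, rfl⟩ := hT1 _ (hCb hc) hxc
      exact hgα _ (hz.2.trans (hh2 _ (hCb hc)))
    · intro γ hγ
      obtain ⟨c, hc, hγc⟩ := hunb γ hγ
      exact (hT3 _ (hCb hc)).mono (subset_biUnion_of_mem (u := fun c => T c) hc) hγc

theorem pos_succ (G : SimpleGraph Ordinal.{0}) (X : Set Ordinal.{0}) (n : ℕ)
    (hN : ¬ HasMatching G X (ω ^ ((n + 1 : ℕ) : Ordinal.{0})))
    {ζ ζ' : Ordinal.{0}} (hζ' : ζ' ≠ 0) (hpos : Pos G X ζ ζ') :
    Pos G X (ζ + ((n + 1 : ℕ) : Ordinal.{0})) (ζ' + 1) := by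
  intro T hTX hT
  obtain ⟨g, hg, hgT⟩ := hT
  have hexp : ω ^ ζ * ω ^ (n : Ordinal.{0}) < ω ^ (ζ + ((n + 1 : ℕ) : Ordinal.{0})) := by
    rw [← opow_add]
    refine (opow_lt_opow_iff_right one_lt_omega0).2 ((add_lt_add_iff_left _).2 ?_)
    exact_mod_cast Nat.lt_succ_self n
  have hlim : IsSuccLimit (ω ^ (ζ + ((n + 1 : ℕ) : Ordinal.{0}))) := by
    refine isSuccLimit_opow_left isSuccLimit_omega0 ?_
    intro h0
    rw [Ordinal.add_eq_zero_iff] at h0
    exact absurd h0.2 (by exact_mod_cast Nat.succ_ne_zero n)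
  obtain ⟨S, hS1, hS2, hS3⟩ := glue_succ G (τ := ω ^ ζ') hlim.bot_lt
    (opow_ne_zero _ omega0_ne_zero) hg (fun a ha =>
      star_of_pos G X n hN hlim hg (fun x hx => hTX (hgT x hx))
        (isPrincipal_add_omega0_opow _ ha hexp) hζ' hpos)
  refine ⟨S, ?_, hS2, ?_⟩
  · refine hS1.trans ?_
    rintro _ ⟨x, hx, rfl⟩
    exact hgT x hx
  · rw [opow_add, opow_one]
    exact hS3

theorem pos_base (G : SimpleGraph Ordinal.{0}) (X : Set Ordinal.{0}) (n : ℕ)
    (hN : ¬ HasMatching G X (ω ^ ((n + 1 : ℕ) : Ordinal.{0}))) :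
    Pos G X (1 + ((n + 1 : ℕ) : Ordinal.{0})) 1 := by
  intro T hTX hT
  obtain ⟨g, hg, hgT⟩ := hT
  have hexp : ω ^ (1 : Ordinal.{0}) * ω ^ (n : Ordinal.{0}) <
      ω ^ (1 + ((n + 1 : ℕ) : Ordinal.{0})) := by
    rw [← opow_add]
    refine (opow_lt_opow_iff_right one_lt_omega0).2 ((add_lt_add_iff_left _).2 ?_)
    exact_mod_cast Nat.lt_succ_self n
  have hlim : IsSuccLimit (ω ^ (1 + ((n + 1 : ℕ) : Ordinal.{0}))) := by
    refine isSuccLimit_opow_left isSuccLimit_omega0 ?_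
    intro h0
    rw [Ordinal.add_eq_zero_iff] at h0
    exact absurd h0.2 (by exact_mod_cast Nat.succ_ne_zero n)
  obtain ⟨S, hS1, hS2, hS3⟩ := glue_succ G (τ := 1) hlim.bot_lt
    one_ne_zero hg (fun a ha =>
      star_base G X n hN hlim hg (fun x hx => hTX (hgT x hx))
        (isPrincipal_add_omega0_opow _ ha hexp))
  refine ⟨S, ?_, hS2, ?_⟩
  · refine hS1.trans ?_
    rintro _ ⟨x, hx, rfl⟩
    exact hgT x hx
  · rw [opow_one]
    rwa [one_mul] at hS3

theorem pos_limit (G : SimpleGraph Ordinal.{0}) {α : Ordinal.{0}} (n : ℕ)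
    (hN : ¬ HasMatching G (Iio α) (ω ^ ((n + 1 : ℕ) : Ordinal.{0})))
    {η : Ordinal.{0}} (hη : IsSuccLimit η)
    (hpos : ∀ θ < η, θ ≠ 0 → ∃ m : ℕ, Pos G (Iio α) (θ + (m : Ordinal.{0})) θ) :
    Pos G (Iio α) η η := by
  intro T hTX hT
  obtain ⟨g, hg, hgT⟩ := hT
  have hlim : IsSuccLimit (ω ^ η) :=
    isSuccLimit_opow_left isSuccLimit_omega0 hη.bot_lt.ne'
  obtain ⟨S, hS1, hS2, hS3⟩ := glue_limit G (α := α) hlim
    (fun x hx => hTX (hgT x hx)) (fun a ha => by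
      obtain ⟨θ, hθ, haθ⟩ := (lt_opow_of_isSuccLimit omega0_ne_zero hη).1 ha
      have hθ1 : θ + 1 < η := hη.succ_lt hθ
      obtain ⟨m, hm⟩ := hpos (θ + 1) hθ1 (by simp)
      have hlt : θ + 1 + (m : Ordinal.{0}) + (n : Ordinal.{0}) < η := by
        have h1 : ∀ q : ℕ, θ + 1 + (q : Ordinal.{0}) < η := by
          intro q
          induction q with
          | zero => simpa using hθ1
          | succ q ih =>
            rw [Nat.cast_succ, ← add_assoc]
            exact hη.succ_lt ih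
        have h2 := h1 (m + n)
        rwa [Nat.cast_add, ← add_assoc] at h2
      have hexp : ω ^ (θ + 1 + (m : Ordinal.{0})) * ω ^ (n : Ordinal.{0}) < ω ^ η := by
        rw [← opow_add]
        exact (opow_lt_opow_iff_right one_lt_omega0).2 hlt
      obtain ⟨h, hh1, hh2, T', hT1, hT2, hT3, hT4⟩ :=
        star_of_pos G (Iio α) n hN hlim hg (fun x hx => hTX (hgT x hx))
          (isPrincipal_add_omega0_opow _ ha hexp) (by simp) hm
      refine ⟨h, hh1, hh2, T', hT1, hT2, hT3.mono Subset.rfl ?_, hT4⟩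
      refine haθ.le.trans ?_
      exact opow_le_opow_right omega0_pos (le_self_add))
  refine ⟨S, ?_, hS2, hS3⟩
  refine hS1.trans ?_
  rintro _ ⟨x, hx, rfl⟩
  exact hgT x hx

theorem pos_all (G : SimpleGraph Ordinal.{0}) {α : Ordinal.{0}} (n : ℕ)
    (hN : ¬ HasMatching G (Iio α) (ω ^ ((n + 1 : ℕ) : Ordinal.{0}))) (θ : Ordinal.{0})
    (hθ : θ ≠ 0) : ∃ m : ℕ, Pos G (Iio α) (θ + (m : Ordinal.{0})) θ := by
  induction θ using Ordinal.limitRecOn with
  | zero => exact absurd rfl hθ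
  | add_one θ ih =>
    by_cases h0 : θ = 0
    · subst h0
      refine ⟨n + 1, ?_⟩
      have := pos_base G (Iio α) n hN
      simpa using this
    · obtain ⟨m, hm⟩ := ih h0
      refine ⟨m + n, ?_⟩
      have h1 := pos_succ G (Iio α) n hN h0 hm
      have h2 : θ + 1 + ((m + n : ℕ) : Ordinal.{0}) = θ + (m : Ordinal.{0}) + ((n + 1 : ℕ) : Ordinal.{0}) := by
        rw [add_assoc, add_assoc]
        congr 1
        have : ((1 + (m + n) : ℕ) : Ordinal.{0}) = ((m + (n + 1) : ℕ) : Ordinal.{0}) := by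
          congr 1; omega
        simpa [Nat.cast_add] using this
      rw [h2]
      exact h1
  | limit θ hl ih =>
    refine ⟨0, ?_⟩
    have := pos_limit G n hN hl (fun θ' hθ' h0 => ih θ' hθ' h0)
    simpa using this

theorem pos_final (G : SimpleGraph Ordinal.{0}) {α : Ordinal.{0}} (n : ℕ)
    (hN : ¬ HasMatching G (Iio α) (ω ^ ((n + 1 : ℕ) : Ordinal.{0}))) {η : Ordinal.{0}}
    (hη : IsSuccLimit η) (j : ℕ) :
    Pos G (Iio α) (η + ((j * (n + 1) : ℕ) : Ordinal.{0})) (η + (j : Ordinal.{0})) := by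
  induction j with
  | zero =>
    have := pos_limit G n hN hη (fun θ _ h0 => pos_all G n hN θ h0)
    simpa using this
  | succ j ih =>
    have hne : η + (j : Ordinal.{0}) ≠ 0 := by
      intro h0
      rw [Ordinal.add_eq_zero_iff] at h0
      exact hη.bot_lt.ne' h0.1
    have h1 := pos_succ G (Iio α) n hN hne ih
    have h2 : η + (((j + 1) * (n + 1) : ℕ) : Ordinal.{0}) =
        η + ((j * (n + 1) : ℕ) : Ordinal.{0}) + ((n + 1 : ℕ) : Ordinal.{0}) := by
      rw [add_assoc, ← Nat.cast_add]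
      congr 2
      ring
    have h3 : η + ((j + 1 : ℕ) : Ordinal.{0}) = η + (j : Ordinal.{0}) + 1 := by
      rw [Nat.cast_succ, ← add_assoc]
    rw [h2, h3]
    exact h1

theorem main (j k : ℕ) (hk : 1 ≤ k) (η : Ordinal.{0}) (hη : IsSuccLimit η)
    (G : SimpleGraph Ordinal.{0}) :
    (∃ S : Set Ordinal.{0},
        S ⊆ Set.Iio (Ordinal.omega0 ^ (η + ((j * k : ℕ) : Ordinal.{0}))) ∧
        Nonempty (S ≃o Set.Iio (Ordinal.omega0 ^ (η + ((j : ℕ) : Ordinal.{0})))) ∧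
        S.Pairwise (fun x y => ¬ G.Adj x y)) ∨
    (∃ A B : Set Ordinal.{0},
        A ⊆ Set.Iio (Ordinal.omega0 ^ (η + ((j * k : ℕ) : Ordinal.{0}))) ∧
        B ⊆ Set.Iio (Ordinal.omega0 ^ (η + ((j * k : ℕ) : Ordinal.{0}))) ∧
        (∀ a ∈ A, ∀ b ∈ B, a < b) ∧
        Nonempty (A ≃o Set.Iio (Ordinal.omega0 ^ ((k : ℕ) : Ordinal.{0}))) ∧
        ∃ f : A ≃ B, ∀ a : A, G.Adj (a : Ordinal.{0}) (f a : Ordinal.{0})) := by
  obtain ⟨n, rfl⟩ : ∃ n, k = n + 1 := ⟨k - 1, by omega⟩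
  by_cases hN : HasMatching G (Iio (Ordinal.omega0 ^ (η + ((j * (n + 1) : ℕ) : Ordinal.{0}))))
      (ω ^ ((n + 1 : ℕ) : Ordinal.{0}))
  · right
    exact hN
  · left
    obtain ⟨S, hS1, hS2, g, hg, hgS⟩ := pos_final G n hN hη j _ Subset.rfl
      ⟨id, fun _ _ _ _ h => h, fun x hx => hx⟩
    refine ⟨g '' Iio (ω ^ (η + (j : Ordinal.{0}))), ?_, ⟨(StrictMonoOn.orderIso g _ hg).symm⟩, ?_⟩
    · rintro _ ⟨x, hx, rfl⟩
      exact hS1 (hgS x hx)
    · refine hS2.mono ?_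
      rintro _ ⟨x, hx, rfl⟩
      exact hgS x hx

end Pool.Agent.Work.MP_b29fea_lc
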